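import Mathlib
import Pool.Agent.R985.DLA3

/-!
# Diffusion limited aggregation on the hypercube ends after `o(2^n)` particles

The vertices of the hypercube `{0,1}^n` are coded by the sets of their coordinates equal to one
(`Finset (Fin n)`).  A decreasing walk from `1` is coded by a permutation `σ` of the coordinates:
`walk σ i` is the vertex after `i` steps, where coordinate `j` is switched off at step `σ j + 1`.
`cluster ω t` is the occupied set after `t` particles when the particle `t + 1` follows the walk coded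
by `ω t`, `law n` is the law of a sequence of independent uniformly distributed permutations, and
`tEnd ω` is the first `t` with the top vertex occupied.

Proof. Let `S_k` be the number of occupied vertices of level at least `k`. If the walk of the next
particle goes through an occupied vertex of level `k` then `S_0, ..., S_{k+1}` increase by one, and
this has probability `(S_k - S_{k+1}) / C(n,k)`. For integers `y_0 > y_1 > ... > y_n = 1` the potential
`(y_0 - S_0)^+ + ∑_k C(n,k) / (y_k - y_{k+1}) * (y_{k+1} - S_{k+1})^+` therefore decreases by at least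
one in the mean in each step before the end. Hence
`E t_end ≤ (n+1) ∏_{k<n} (1 + C(n,k)/T) + n T` for every `T > 0`, and a suitable `T = 2^n / (G (n+1))`
gives `E t_end ≤ 2 * 2^n / G` for all large `n`.
-/

set_option autoImplicit false

namespace Pool.Agent.Results.MP_db93e3_pr.EndTimeLittleO

open Finset MeasureTheory ProbabilityTheory Filter Topology
open scoped ENNReal
open Pool.Agent.R985.DLA

/-- The process always ends: the top vertex is occupied at time `tEnd`. -/
theorem univ_mem_tEnd {n : ℕ} (ω : ℕ → Equiv.Perm (Fin n)) : Finset.univ ∈ cluster ω (tEnd ω) := by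
  have hex : ∃ t, Finset.univ ∈ cluster ω t := by
    by_contra hcon
    push Not at hcon
    have hcard : ∀ t, t < (cluster ω t).card := by
      intro t
      induction t with
      | zero => simp [cluster]
      | succ t ih =>
        have h0 : walk (ω t) n ∈ cluster ω t := by rw [walk_n]; exact empty_mem ω t
        have h1 := new_notMem h0 (hcon t)
        simp only [cluster, step]
        rw [Finset.card_insert_of_notMem h1]
        omega
    have h1 := hcard (2 ^ n)
    have h2 : (cluster ω (2 ^ n)).card ≤ 2 ^ n := by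
      have := Finset.card_le_univ (cluster ω (2 ^ n))
      simpa [Fintype.card_finset] using this
    omega
  exact Nat.sInf_mem hex

/-- Diffusion limited aggregation on the hypercube `{0,1}^n`: the number `tEnd` of particles needed
to occupy the top vertex satisfies `E tEnd = o(2^n)`, and in particular `tEnd = o(2^n)` in
probability. -/
theorem result :
    Tendsto (fun n : ℕ => (∫⁻ ω, (tEnd ω : ℝ≥0∞) ∂(law n)) / 2 ^ n) atTop (𝓝 0) ∧
    ∀ ε : ℝ, 0 < ε →
      Tendsto (fun n : ℕ => law n {ω | ε * 2 ^ n < (tEnd ω : ℝ)}) atTop (𝓝 0) := by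
  have hmain : Tendsto (fun n : ℕ => (∫⁻ ω, (tEnd ω : ℝ≥0∞) ∂(law n)) / 2 ^ n) atTop (𝓝 0) := by
    rw [ENNReal.tendsto_nhds_zero]
    intro ε hε
    obtain ⟨G, hG1, hG⟩ : ∃ G : ℝ, 1 ≤ G ∧ ENNReal.ofReal (2 / G) ≤ ε := by
      by_cases htop : ε = ⊤
      · exact ⟨1, le_rfl, by rw [htop]; exact le_top⟩
      · have hε' : 0 < ε.toReal := ENNReal.toReal_pos hε.ne' htop
        refine ⟨max 1 (2 / ε.toReal), le_max_left _ _, ?_⟩
        refine ENNReal.ofReal_le_of_le_toReal ?_
        have h1 : 2 / ε.toReal ≤ max 1 (2 / ε.toReal) := le_max_right _ _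
        have h2 : 0 < max 1 (2 / ε.toReal) := lt_of_lt_of_le one_pos (le_max_left _ _)
        rw [div_le_iff₀ h2]
        rw [div_le_iff₀ hε'] at h1
        linarith
    have hG0 : 0 < G := by linarith
    filter_upwards [eventually_le hG1] with n hn
    have h2n : (0 : ℝ) < 2 ^ n := by positivity
    have h1 := lintegral_tEnd_le' n (T := 2 ^ n / ((n + 1) * G)) (by positivity)
    have h2 : (∫⁻ ω, (tEnd ω : ℝ≥0∞) ∂(law n)) ≤ ENNReal.ofReal (2 * 2 ^ n / G) :=
      h1.trans (ENNReal.ofReal_le_ofReal hn)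
    refine le_trans ?_ hG
    rw [ENNReal.div_le_iff (by positivity) (by simp)]
    refine h2.trans (le_of_eq ?_)
    rw [show (2 : ℝ≥0∞) ^ n = ENNReal.ofReal (2 ^ n) by
      rw [ENNReal.ofReal_pow (by norm_num)]; norm_num]
    rw [← ENNReal.ofReal_mul (by positivity)]
    congr 1
    ring
  refine ⟨hmain, fun ε hε => ?_⟩
  have hεn : ∀ n : ℕ, (0 : ℝ) < ε * 2 ^ n := fun n => by positivity
  have hmarkov : ∀ n : ℕ, law n {ω | ε * 2 ^ n < (tEnd ω : ℝ)}
      ≤ ENNReal.ofReal (1 / ε) * ((∫⁻ ω, (tEnd ω : ℝ≥0∞) ∂(law n)) / 2 ^ n) := by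
    intro n
    have h1 : ENNReal.ofReal (ε * 2 ^ n) * law n {ω | ε * 2 ^ n < (tEnd ω : ℝ)}
        ≤ ∫⁻ ω, (tEnd ω : ℝ≥0∞) ∂(law n) := by
      have h2 : {ω : ℕ → Equiv.Perm (Fin n) | ε * 2 ^ n < (tEnd ω : ℝ)}
          ⊆ {ω | ENNReal.ofReal (ε * 2 ^ n) ≤ (tEnd ω : ℝ≥0∞)} := by
        intro ω hω
        have h3 : ENNReal.ofReal (ε * 2 ^ n) ≤ ENNReal.ofReal (tEnd ω : ℝ) :=
          ENNReal.ofReal_le_ofReal (le_of_lt hω)
        rw [ENNReal.ofReal_natCast] at h3
        exact h3
      refine (mul_le_mul_right (measure_mono h2) _).trans ?_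
      exact mul_meas_ge_le_lintegral₀ (measurable_tEnd n).aemeasurable _
    have h3 : ENNReal.ofReal (ε * 2 ^ n) = ENNReal.ofReal ε * 2 ^ n := by
      rw [ENNReal.ofReal_mul hε.le, ENNReal.ofReal_pow (by norm_num)]
      norm_num
    rw [h3] at h1
    have hε0 : ENNReal.ofReal ε ≠ 0 := by simpa using hε
    have h2n : (2 : ℝ≥0∞) ^ n ≠ 0 := by positivity
    rw [one_div, ENNReal.ofReal_inv_of_pos hε, ← ENNReal.div_eq_inv_mul]
    rw [ENNReal.le_div_iff_mul_le (Or.inl hε0) (Or.inl ENNReal.ofReal_ne_top),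
      ENNReal.le_div_iff_mul_le (Or.inl h2n) (Or.inl (by simp))]
    calc law n {ω | ε * 2 ^ n < (tEnd ω : ℝ)} * ENNReal.ofReal ε * 2 ^ n
        = ENNReal.ofReal ε * 2 ^ n * law n {ω | ε * 2 ^ n < (tEnd ω : ℝ)} := by ring
      _ ≤ _ := h1
  have hlim : Tendsto (fun n : ℕ => ENNReal.ofReal (1 / ε) *
      ((∫⁻ ω, (tEnd ω : ℝ≥0∞) ∂(law n)) / 2 ^ n)) atTop (𝓝 0) := by
    have := ENNReal.Tendsto.const_mul hmain (a := ENNReal.ofReal (1 / ε))
      (Or.inr ENNReal.ofReal_ne_top)
    rwa [mul_zero] at this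
  exact tendsto_of_tendsto_of_tendsto_of_le_of_le tendsto_const_nhds hlim
    (fun n => zero_le) hmarkov

end Pool.Agent.Results.MP_db93e3_pr.EndTimeLittleO
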